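import Pool.Agent.H8.TD.Targets

set_option autoImplicit false

open MvPolynomial
open Pool.Agent.H12.ZD (pmap v O Res DenseOrbit NoInv)
open Pool.Agent.H18.HIT
open Pool.Agent.H8.ZA (HFam Const NA sz)
open Pool.Agent.H8.TD

namespace Pool.Agent.H55.TD

section

/-- substitution of `g` for the variable `j` -/
noncomputable def sub_AXF {R : Type} [CommRing R] {N : ℕ} (g : R) (j : Fin N) :
    MvPolynomial (Fin N) R →ₐ[R] MvPolynomial (Fin N) R :=
  aeval (Function.update (X : Fin N → MvPolynomial (Fin N) R) j (C g))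

theorem sub_self_AXF {R : Type} [CommRing R] {N : ℕ} (g : R) (j : Fin N) :
    sub_AXF g j (X j) = C g := by
  unfold sub_AXF
  rw [aeval_X, Function.update_self]

theorem sub_ne_AXF {R : Type} [CommRing R] {N : ℕ} (g : R) {i j : Fin N} (h : i ≠ j) :
    sub_AXF g j (X i) = X i := by
  unfold sub_AXF
  rw [aeval_X, Function.update_of_ne h]

theorem sub_C_AXF {R : Type} [CommRing R] {N : ℕ} (g : R) (j : Fin N) (c : R) :
    sub_AXF g j (C c) = C c := by
  unfold sub_AXF
  rw [aeval_C]
  rfl

/-- the remainder theorem -/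
theorem rem_AXF {R : Type} [CommRing R] {N : ℕ} (g : R) (j : Fin N)
    (t : MvPolynomial (Fin N) R) : (X j - C g) ∣ t - sub_AXF g j t := by
  have h1 : (Ideal.Quotient.mkₐ R (Ideal.span {(X j - C g : MvPolynomial (Fin N) R)})).comp
      (sub_AXF g j) = Ideal.Quotient.mkₐ R (Ideal.span {(X j - C g : MvPolynomial (Fin N) R)}) := by
    refine MvPolynomial.algHom_ext fun i => ?_
    rw [AlgHom.comp_apply]
    by_cases h : i = j
    · rw [h, sub_self_AXF]
      refine (Ideal.Quotient.eq.2 ?_).symm
      exact Ideal.subset_span rfl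
    · rw [sub_ne_AXF g h]
  have h2 : Ideal.Quotient.mk (Ideal.span {(X j - C g : MvPolynomial (Fin N) R)}) (sub_AXF g j t) =
      Ideal.Quotient.mk (Ideal.span {(X j - C g : MvPolynomial (Fin N) R)}) t :=
    congrArg (fun f => f t) h1
  exact Ideal.mem_span_singleton.1 (Ideal.Quotient.eq.1 h2.symm)

theorem ne_AXF {R : Type} [CommRing R] [IsDomain R] {N : ℕ} (g : R) (j : Fin N) :
    (X j - C g : MvPolynomial (Fin N) R) ≠ 0 := by
  intro h
  have h1 := congrArg (coeff (Finsupp.single j 1)) h
  rw [coeff_sub, coeff_X, coeff_C, coeff_zero, if_pos rfl, if_neg, sub_zero] at h1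
  · exact one_ne_zero h1
  · intro h2
    have h3 := DFunLike.congr_fun h2 j
    simp at h3

/-- divisibility by the product -/
theorem prod_AXF {R : Type} [CommRing R] [IsDomain R] {N : ℕ} (g : R)
    (s : MvPolynomial (Fin N) R) (hs : ∀ j, sub_AXF g j s = 0) (J : Finset (Fin N)) :
    (∏ j ∈ J, (X j - C g)) ∣ s := by
  classical
  induction J using Finset.induction_on with
  | empty =>
    rw [Finset.prod_empty]
    exact one_dvd s
  | insert j J hj ih =>
    obtain ⟨t, ht⟩ := ih
    have h1 : sub_AXF g j (∏ i ∈ J, (X i - C g)) = ∏ i ∈ J, (X i - C g) := by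
      rw [map_prod]
      refine Finset.prod_congr rfl fun i hi => ?_
      have h2 : i ≠ j := by
        rintro rfl
        exact hj hi
      rw [map_sub, sub_ne_AXF g h2, sub_C_AXF]
    have h2 : (∏ i ∈ J, (X i - C g) : MvPolynomial (Fin N) R) ≠ 0 :=
      Finset.prod_ne_zero_iff.2 fun i _ => ne_AXF g i
    have h3 : sub_AXF g j t = 0 := by
      have h4 := hs j
      rw [ht, map_mul, h1] at h4
      exact (mul_eq_zero.1 h4).resolve_left h2
    have h4 := rem_AXF g j t
    rw [h3, sub_zero] at h4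
    obtain ⟨t', ht'⟩ := h4
    refine ⟨t', ?_⟩
    rw [Finset.prod_insert hj, ht, ht']
    ring

/-- elements of `k(a)` as fractions -/
theorem frac_AXF {k K : Type} [Field k] [Field K] [Algebra k K] (a x : K)
    (hx : x ∈ IntermediateField.adjoin k {a}) : ∃ p q : Polynomial k,
    Polynomial.aeval a q ≠ 0 ∧ x * Polynomial.aeval a q = Polynomial.aeval a p := by
  rw [IntermediateField.mem_adjoin_simple_iff] at hx
  obtain ⟨r, s, hrs⟩ := hx
  by_cases hs : Polynomial.aeval a s = 0
  · refine ⟨0, 1, ?_, ?_⟩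
    · rw [map_one]
      exact one_ne_zero
    · rw [hrs, hs, div_zero, zero_mul, map_zero]
  · refine ⟨r, s, hs, ?_⟩
    rw [hrs, div_mul_cancel₀ _ hs]

/-- common denominator -/
theorem den_AXF {k K ι : Type} [Field k] [Field K] [Algebra k K] [Fintype ι] (a : K) (x : ι → K)
    (hx : ∀ i, x i ∈ IntermediateField.adjoin k {a}) : ∃ (p : ι → Polynomial k) (q : Polynomial k),
    Polynomial.aeval a q ≠ 0 ∧ ∀ i, x i * Polynomial.aeval a q = Polynomial.aeval a (p i) := by
  classical
  choose p q hq hpq using fun i => frac_AXF a (x i) (hx i)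
  refine ⟨fun i => p i * ∏ j ∈ Finset.univ.erase i, q j, ∏ j, q j, ?_, ?_⟩
  · rw [map_prod]
    exact Finset.prod_ne_zero_iff.2 fun i _ => hq i
  · intro i
    rw [← Finset.mul_prod_erase Finset.univ q (Finset.mem_univ i), map_mul, map_mul, ← mul_assoc,
      hpq]

theorem bas_AXF {F' V : Type} [Field F'] [AddCommGroup V] [Module F' V] [Module.Finite F' V]
    (r : ℕ) (hr : r = Module.finrank F' V) : ∃ _ : Module.Basis (Fin r) F' V, True := by
  subst hr
  exact ⟨Module.finBasis F' V, trivial⟩

end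

theorem pf_AXF : T_AXF := by
  intro k R K _ _ _ _ _ _ _ _ W g N ρ hinj htr hW hrank hN
  classical
  obtain ⟨Fg, hFg⟩ : ∃ Fg, Fg = IntermediateField.adjoin k {algebraMap R K g} := ⟨_, rfl⟩
  have hFg' : ∀ x : Fg, (x : K) ∈ IntermediateField.adjoin k {algebraMap R K g} :=
    fun x => hFg ▸ x.2
  rw [← hFg] at hrank
  obtain ⟨V, hV⟩ : ∃ V, V = Submodule.span Fg (algebraMap R K '' W) := ⟨_, rfl⟩
  rw [← hV] at hrank
  -- finite dimension of `V`
  obtain ⟨w, hw⟩ : ∃ w : Module.Basis (Fin (Module.finrank k W)) k W, True :=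
    ⟨Module.finBasis k W, trivial⟩
  have hVfin : Module.Finite Fg V := by
    have h1 : V = Submodule.span Fg (Set.range fun d => algebraMap R K (w d)) := by
      rw [hV]
      apply le_antisymm
      · rw [Submodule.span_le]
        rintro _ ⟨x, hx, rfl⟩
        have h2 := w.sum_repr ⟨x, hx⟩
        have h3 : x = ∑ d, (w.repr ⟨x, hx⟩ d) • ((w d : W) : R) := by
          have h4 := congrArg (fun y : W => (y : R)) h2
          simp only [AddSubmonoidClass.coe_finsetSum, Submodule.coe_smul] at h4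
          exact h4.symm
        rw [h3, map_sum]
        refine Submodule.sum_mem _ fun d _ => ?_
        have h5 : algebraMap R K (w.repr ⟨x, hx⟩ d • ((w d : W) : R)) =
            (algebraMap k Fg (w.repr ⟨x, hx⟩ d)) • algebraMap R K (w d) := by
          rw [Algebra.smul_def, map_mul, ← IsScalarTower.algebraMap_apply k R K, Algebra.smul_def]
          rfl
        rw [h5]
        exact Submodule.smul_mem _ _ (Submodule.subset_span ⟨d, rfl⟩)
      · rw [Submodule.span_le]
        rintro _ ⟨d, rfl⟩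
        exact Submodule.subset_span ⟨_, (w d).2, rfl⟩
    rw [h1]
    exact Module.Finite.span_of_finite Fg (Set.finite_range _)
  obtain ⟨r, hr⟩ : ∃ r, r = Module.finrank Fg V := ⟨_, rfl⟩
  obtain ⟨v, -⟩ : ∃ v : Module.Basis (Fin r) Fg V, True := bas_AXF (F' := Fg) (V := V) r hr
  obtain ⟨D, hD⟩ : ∃ D, D = Module.finrank k W := ⟨_, rfl⟩
  rw [← hD] at w hN
  have hmem : ∀ d, algebraMap R K (w d) ∈ V := fun d => hV ▸ Submodule.subset_span ⟨_, (w d).2, rfl⟩
  obtain ⟨p, q, hq, hpq⟩ := den_AXF (k := k) (ι := Fin D × Fin r) (algebraMap R K g)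
    (fun e => (v.repr ⟨_, hmem e.1⟩ e.2 : K)) (fun e => hFg' _)
  have hexp : ∀ d, algebraMap R K (w d) * Polynomial.aeval (algebraMap R K g) q =
      ∑ i, Polynomial.aeval (algebraMap R K g) (p (d, i)) * ((v i : V) : K) := by
    intro d
    have h1 := v.sum_repr ⟨_, hmem d⟩
    have h2 : algebraMap R K (w d) = ∑ i, (v.repr ⟨_, hmem d⟩ i : K) * ((v i : V) : K) := by
      have h3 := congrArg (fun y : V => (y : K)) h1
      simp only [AddSubmonoidClass.coe_finsetSum, Submodule.coe_smul] at h3
      exact h3.symm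
    rw [h2, Finset.sum_mul]
    refine Finset.sum_congr rfl fun i _ => ?_
    rw [← hpq (d, i)]
    ring
  -- the linear system
  obtain ⟨f, hf⟩ : ∃ f : (Fin D → MvPolynomial (Fin N) k) →ₗ[MvPolynomial (Fin N) k]
      (Fin N × Fin r → MvPolynomial (Fin N) k), ∀ P e, f P e =
        ∑ d, P d * Polynomial.aeval (X e.1 : MvPolynomial (Fin N) k) (p (d, e.2)) := by
    refine ⟨Matrix.mulVecLin (Matrix.of fun (e : Fin N × Fin r) d =>
      Polynomial.aeval (X e.1 : MvPolynomial (Fin N) k) (p (d, e.2))), fun P e => ?_⟩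
    rw [Matrix.mulVecLin_apply, Matrix.mulVec, dotProduct]
    refine Finset.sum_congr rfl fun d _ => ?_
    rw [Matrix.of_apply, mul_comm]
  have hninj : ¬ Function.Injective f := by
    intro h
    have h1 := card_le_of_injective (R := MvPolynomial (Fin N) k) f h
    rw [Fintype.card_fin, Fintype.card_prod, Fintype.card_fin, Fintype.card_fin] at h1
    have h2 : N * r ≤ N * ρ := Nat.mul_le_mul_left _ (hr ▸ hrank)
    omega
  obtain ⟨P, hP, hP0⟩ : ∃ P, f P = 0 ∧ P ≠ 0 := by
    by_contra hcon
    push Not at hcon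
    exact hninj ((injective_iff_map_eq_zero f).2 hcon)
  have hPe : ∀ (j : Fin N) (i : Fin r),
      ∑ d, P d * Polynomial.aeval (X j : MvPolynomial (Fin N) k) (p (d, i)) = 0 := by
    intro j i
    have h1 := congrFun hP (j, i)
    rw [hf] at h1
    exact h1
  obtain ⟨s, hs⟩ : ∃ s : MvPolynomial (Fin N) R,
      s = ∑ d, map (algebraMap k R) (P d) * C ((w d : W) : R) := ⟨_, rfl⟩
  have hcoef : ∀ γ, coeff γ s = ((∑ d, coeff γ (P d) • w d : W) : R) := by
    intro γ
    rw [hs, coeff_sum, AddSubmonoidClass.coe_finsetSum]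
    refine Finset.sum_congr rfl fun d _ => ?_
    rw [mul_comm, coeff_C_mul, coeff_map, Submodule.coe_smul, Algebra.smul_def, mul_comm]
  have hs0 : s ≠ 0 := by
    intro h0
    apply hP0
    funext d
    refine MvPolynomial.ext _ _ fun γ => ?_
    have h1 := hcoef γ
    rw [h0, coeff_zero] at h1
    have h2 : (∑ d, coeff γ (P d) • w d : W) = 0 := Subtype.ext h1.symm
    have h3 := Fintype.linearIndependent_iff.1 w.linearIndependent _ h2 d
    rw [h3]
    rfl
  have hsub : ∀ j, sub_AXF g j s = 0 := by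
    intro j
    -- the composition `A → MvPolynomial (Fin N) K`
    obtain ⟨ι, hι⟩ : ∃ ι : MvPolynomial (Fin N) R →ₐ[R] MvPolynomial (Fin N) K,
      ι = mapAlgHom (Algebra.ofId R K) := ⟨_, rfl⟩
    have hιC : ∀ c : R, ι (C c) = C (algebraMap R K c) := by
      intro c
      rw [hι, mapAlgHom_apply, map_C]
      rfl
    have hιinj : Function.Injective ι := by
      rw [hι]
      exact map_injective _ hinj
    apply hιinj
    rw [map_zero]
    obtain ⟨θ, hθ⟩ : ∃ θ : MvPolynomial (Fin N) k →ₐ[k] MvPolynomial (Fin N) K,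
      θ = ((ι.restrictScalars k).comp ((sub_AXF g j).restrictScalars k)).comp
        (mapAlgHom (Algebra.ofId k R)) := ⟨_, rfl⟩
    have hθ1 : ∀ x, θ x = ι (sub_AXF g j (map (algebraMap k R) x)) := by
      intro x
      rw [hθ]
      rfl
    have hθX : θ (X j) = C (algebraMap R K g) := by
      rw [hθ1, map_X, sub_self_AXF, hιC]
    have hθp : ∀ y : Polynomial k, θ (Polynomial.aeval (X j : MvPolynomial (Fin N) k) y) =
        C (Polynomial.aeval (algebraMap R K g) y) := by
      intro y
      rw [← Polynomial.aeval_algHom_apply, hθX]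
      exact Polynomial.aeval_algebraMap_apply (MvPolynomial (Fin N) K) (algebraMap R K g) y
    have h1 : ι (sub_AXF g j s) = ∑ d, θ (P d) * C (algebraMap R K (w d)) := by
      rw [hs, map_sum, map_sum]
      refine Finset.sum_congr rfl fun d _ => ?_
      rw [map_mul, map_mul, sub_C_AXF, hιC, hθ1]
    have h2 : ι (sub_AXF g j s) * C (Polynomial.aeval (algebraMap R K g) q) = 0 := by
      rw [h1, Finset.sum_mul]
      have h3 : ∀ d, θ (P d) * C (algebraMap R K (w d)) *
          C (Polynomial.aeval (algebraMap R K g) q) =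
          ∑ i, θ (P d * Polynomial.aeval (X j : MvPolynomial (Fin N) k) (p (d, i))) *
            C ((v i : V) : K) := by
        intro d
        rw [mul_assoc, ← C_mul, hexp, map_sum, Finset.mul_sum]
        refine Finset.sum_congr rfl fun i _ => ?_
        rw [C_mul, map_mul θ, hθp, mul_assoc]
      rw [Finset.sum_congr rfl fun d _ => h3 d, Finset.sum_comm]
      refine Finset.sum_eq_zero fun i _ => ?_
      rw [← Finset.sum_mul, ← map_sum, hPe, map_zero, zero_mul]
    refine (mul_eq_zero.1 h2).resolve_right ?_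
    intro h3
    exact hq (C_injective _ _ (h3.trans (C_0).symm))
  obtain ⟨s', hs'⟩ := prod_AXF g s hsub Finset.univ
  refine ⟨s, s', ?_, hs', fun γ => ?_⟩
  · rintro rfl
    rw [mul_zero] at hs'
    exact hs0 hs'
  · rw [hcoef]
    exact Submodule.coe_mem _

end Pool.Agent.H55.TD
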